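import Pool.Agent.H796Z.NilProof

open MeasureTheory Pool.Agent.H796Z.Nil

theorem Pool.Agent.Results.MP_8ac988_an.ANotOneStep.result :
    ∃ (X : Type) (_ : MeasurableSpace X) (_ : StandardBorelSpace X) (μ : Measure X)
      (_ : IsProbabilityMeasure μ) (T₁ T₂ : X ≃ᵐ X),
      MeasurePreserving T₁ μ μ ∧ MeasurePreserving T₂ μ μ ∧ (∀ x, T₁ (T₂ x) = T₂ (T₁ x)) ∧
      (∀ (a b a' b' : ℕ) (x : X), T₁^[a] (T₂^[b] x) = T₁^[a'] (T₂^[b'] x) → a = a' ∧ b = b') ∧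
      ∃ f g h : X → ℂ, MemLp f ⊤ μ ∧ MemLp g ⊤ μ ∧ MemLp h ⊤ μ ∧
        ¬ IsApproxNilseq 1 (corr μ T₁ T₂ f g h) :=
  ⟨X, inferInstance, inferInstance, mu, inferInstance, T1, T2, T1_mp, T2_mp,
    fun x => by simp only [T1_apply, T2_apply]; ext <;> simp only <;> abel,
    free, ff, gg, gg, ff_mem, gg_mem, gg_mem, corr_not_approx⟩
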